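import Pool.Agent.Helper14.W5.StB
import Pool.Agent.Helper14.CV.StB

/-!
# Project W5, module B3b: level 25

Instead of the list of thirty classes: a descent on the denominator. The group of level 25 is
generated by parabolic elements and elements of order four (genus zero), and every rational
number in `[0, 1/2]` other than `0, 1/5, 2/5` is in the open isometric interval of one of ten
products of these.
-/

set_option autoImplicit false

namespace Pool.Agent.Helper53.W5

open Pool.Agent.Helper14.CV Pool.Agent.Helper14.W5 Pool.Agent.Helper28.WK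

/-- Invariance under a matrix. -/
private def Iv (K : ℤ → ℤ → ℂ) (a b c d : ℤ) : Prop :=
  ∀ p q : ℤ, (p ≠ 0 ∨ q ≠ 0) → K (a * p + b * q) (c * p + d * q) = K p q

private theorem Iv.mul {K : ℤ → ℤ → ℂ} {a b c d a' b' c' d' : ℤ} (h : Iv K a b c d)
    (h' : Iv K a' b' c' d') (hd : a' * d' - b' * c' ≠ 0) :
    Iv K (a * a' + b * c') (a * b' + b * d') (c * a' + d * c') (c * b' + d * d') := by
  intro p q hpq
  have e1 : (a * a' + b * c') * p + (a * b' + b * d') * q =
      a * (a' * p + b' * q) + b * (c' * p + d' * q) := by ring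
  have e2 : (c * a' + d * c') * p + (c * b' + d * d') * q =
      c * (a' * p + b' * q) + d * (c' * p + d' * q) := by ring
  rw [e1, e2, h _ _ (ne_zero_of_det hd hpq), h' _ _ hpq]

private theorem Iv.inv {K : ℤ → ℤ → ℂ} {a b c d : ℤ} (h : Iv K a b c d)
    (hd : a * d - b * c = 1) : Iv K d (-b) (-c) a := by
  intro p q hpq
  have hdet : d * a - -b * -c ≠ 0 := by
    have : d * a - -b * -c = 1 := by linear_combination hd
    rw [this]; exact one_ne_zero
  have hne : d * p + -b * q ≠ 0 ∨ -c * p + a * q ≠ 0 := ne_zero_of_det hdet hpq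
  rw [← h _ _ hne]
  have e1 : a * (d * p + -b * q) + b * (-c * p + a * q) = p := by linear_combination p * hd
  have e2 : c * (d * p + -b * q) + d * (-c * p + a * q) = q := by linear_combination q * hd
  rw [e1, e2]

/-- Descent. -/
private theorem descent (K : ℤ → ℤ → ℂ) (κ : ℂ) (hH : Homog K)
    (h1 : Iv K 1 1 0 1) (g1 : Iv K 1 0 (-25) 1) (g2 : Iv K (-12) 1 (-25) 2)
    (g3 : Iv K 8 (-1) 25 (-3)) (g4 : Iv K 6 (-1) 25 (-4)) (g6 : Iv K (-4) 1 (-25) 6)
    (g7 : Iv K 7 (-2) 25 (-7)) (g8 : Iv K (-3) 1 (-25) 8) (g9 : Iv K 11 (-4) 25 (-9))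
    (g11 : Iv K (-9) 4 (-25) 11) (g12 : Iv K 2 (-1) 25 (-12))
    (h4 : ∀ p q : ℤ, (p ≠ 0 ∨ q ≠ 0) → K (-p) q = K p q)
    (k1 : K 1 0 = κ) (k2 : K 0 1 = κ) (k3 : K 1 5 = κ) (k4 : K 2 5 = κ) :
    ∀ N : ℕ, ∀ p q : ℤ, q.natAbs ≤ N → (p ≠ 0 ∨ q ≠ 0) → K p q = κ := by
  have h1' : ∀ p q : ℤ, (p ≠ 0 ∨ q ≠ 0) → K (p + q) q = K p q := by
    intro p q hpq
    have := h1 p q hpq
    simpa using this
  have hT : ∀ (k : ℕ) (p q : ℤ), (p ≠ 0 ∨ q ≠ 0) → q ≠ 0 → K (p + k * q) q = K p q := by
    intro k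
    induction k with
    | zero => intro p q _ _; simp
    | succ k ih =>
      intro p q hpq hq
      have e : p + ((k + 1 : ℕ) : ℤ) * q = (p + k * q) + q := by push_cast; ring
      rw [e, h1' _ _ (Or.inr hq), ih p q hpq hq]
  have hneg : ∀ p q : ℤ, (p ≠ 0 ∨ q ≠ 0) → K (-p) (-q) = K p q := by
    intro p q hpq
    have := hH (-1) p q (by norm_num) hpq
    simpa using this
  intro N
  induction N with
  | zero =>
    intro p q h hpq
    have hq : q = 0 := by omega
    subst hq
    have hp : p ≠ 0 := by omega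
    have := hH p 1 0 hp (Or.inl one_ne_zero)
    rw [mul_zero, mul_one] at this
    rw [this, k1]
  | succ N ih =>
    -- the reduced case
    have hred : ∀ r q : ℤ, 0 < q → 0 ≤ r → 2 * r ≤ q → q.natAbs ≤ N + 1 → K r q = κ := by
      intro r q hq hr hrq hN
      by_cases hr0 : r = 0
      · subst hr0
        have := hH q 0 1 (by omega) (Or.inr one_ne_zero)
        rw [mul_zero, mul_one] at this
        rw [this, k2]
      rcases lt_or_ge (25 * r) (2 * q) with c1 | c1
      · rw [← g1 r q (by omega)]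
        exact ih _ _ (by omega) (by omega)
      rcases lt_or_ge (25 * r) (3 * q) with c2 | c2
      · rw [← g2 r q (by omega)]
        exact ih _ _ (by omega) (by omega)
      rcases lt_or_ge (25 * r) (4 * q) with c3 | c3
      · rw [← g3 r q (by omega)]
        exact ih _ _ (by omega) (by omega)
      rcases lt_trichotomy (5 * r) q with c4 | c4 | c4
      · rw [← g4 r q (by omega)]
        exact ih _ _ (by omega) (by omega)
      · have := hH r 1 5 hr0 (Or.inl one_ne_zero)
        rw [mul_one, mul_comm r 5, c4] at this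
        rw [this, k3]
      rcases lt_or_ge (25 * r) (7 * q) with c6 | c6
      · rw [← g6 r q (by omega)]
        exact ih _ _ (by omega) (by omega)
      rcases lt_or_ge (25 * r) (8 * q) with c7 | c7
      · rw [← g7 r q (by omega)]
        exact ih _ _ (by omega) (by omega)
      rcases lt_or_ge (25 * r) (9 * q) with c8 | c8
      · rw [← g8 r q (by omega)]
        exact ih _ _ (by omega) (by omega)
      rcases lt_trichotomy (5 * r) (2 * q) with c9 | c9 | c9
      · rw [← g9 r q (by omega)]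
        exact ih _ _ (by omega) (by omega)
      · obtain ⟨s, hs⟩ : ∃ s : ℤ, r = 2 * s := ⟨r / 2, by omega⟩
        have hs0 : s ≠ 0 := by omega
        have hq5 : q = s * 5 := by omega
        have := hH s 2 5 hs0 (Or.inl two_ne_zero)
        rw [mul_comm s 2, ← hs, ← hq5] at this
        rw [this, k4]
      rcases lt_or_ge (25 * r) (12 * q) with c11 | c11
      · rw [← g11 r q (by omega)]
        exact ih _ _ (by omega) (by omega)
      · rw [← g12 r q (by omega)]
        exact ih _ _ (by omega) (by omega)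
    -- positive denominators
    have hpos : ∀ p q : ℤ, 0 < q → 0 ≤ p → q.natAbs ≤ N + 1 → K p q = κ := by
      intro p q hq hp hN
      have hm0 : 0 ≤ p % q := Int.emod_nonneg p (by omega)
      have hm1 : p % q < q := Int.emod_lt_of_pos p hq
      have hd0 : 0 ≤ p / q := Int.ediv_nonneg hp hq.le
      have e : K p q = K (p % q) q := by
        have := hT (p / q).toNat (p % q) q (by omega) (by omega)
        rw [Int.toNat_of_nonneg hd0] at this
        have e2 : p % q + p / q * q = p := by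
          have := Int.emod_add_mul_ediv p q
          linarith [mul_comm (p / q) q]
        rw [e2] at this
        exact this
      rw [e]
      by_cases hs : 2 * (p % q) ≤ q
      · exact hred _ _ hq hm0 hs hN
      · rw [← h4 _ _ (by omega), ← h1' _ _ (by omega)]
        exact hred _ _ hq (by omega) (by omega) hN
    have hpos2 : ∀ p q : ℤ, 0 < q → q.natAbs ≤ N + 1 → K p q = κ := by
      intro p q hq hN
      by_cases hp : 0 ≤ p
      · exact hpos p q hq hp hN
      · rw [← h4 _ _ (by omega)]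
        exact hpos _ q hq (by omega) hN
    intro p q hN hpq
    rcases lt_trichotomy q 0 with hq | hq | hq
    · rw [← hneg p q hpq]
      exact hpos2 _ _ (by omega) (by omega)
    · exact ih p q (by omega) hpq
    · exact hpos2 p q hq hN

/-- An element of the group which fixes a cusp. -/
private theorem fixed {K : ℤ → ℤ → ℂ} (hS : SymP 5 0 2 K) (a b c d x y : ℤ)
    (hd : a * d - b * c = 1) (hc : (25 : ℤ) ∣ c) (hxy : x ≠ 0 ∨ y ≠ 0)
    (e1 : a * x + b * y = x) (e2 : c * x + d * y = y) : Iv K a b c d := by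
  obtain ⟨k, hk⟩ := hS.2 a b c d hd (by simp) (by norm_num; exact hc)
  have h1 := hk x y hxy
  simp only [act] at h1 hk
  rw [e1, e2] at h1
  have hk0 : k = 0 := by
    have : K x y + 0 = K x y + k := by rw [add_zero]; exact h1
    exact (add_left_cancel this).symm
  intro p q hpq
  rw [hk p q hpq, hk0, add_zero]

private theorem const_of (K : ℤ → ℤ → ℂ) (hS : SymP 5 0 2 K)
    (hW : EqC (act 0 (-1) 25 0 K) (-K)) (hst : EqC (act (-1) 0 0 1 K) K)
    (h0 : K 1 0 = K 0 1) : EqC K 0 := by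
  have h1 : Iv K 1 1 0 1 := fixed hS 1 1 0 1 1 0 (by norm_num) (by norm_num) (by norm_num)
    (by norm_num) (by norm_num)
  have g1 : Iv K 1 0 (-25) 1 := fixed hS 1 0 (-25) 1 0 1 (by norm_num) (by norm_num)
    (by norm_num) (by norm_num) (by norm_num)
  have g4 : Iv K 6 (-1) 25 (-4) := fixed hS 6 (-1) 25 (-4) 1 5 (by norm_num) (by norm_num)
    (by norm_num) (by norm_num) (by norm_num)
  have g9 : Iv K 11 (-4) 25 (-9) := fixed hS 11 (-4) 25 (-9) 2 5 (by norm_num) (by norm_num)
    (by norm_num) (by norm_num) (by norm_num)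
  have g7 : Iv K 7 (-2) 25 (-7) := by
    obtain ⟨k, hk⟩ := hS.2 7 (-2) 25 (-7) (by norm_num) (by norm_num) (by norm_num)
    have e1 := hk 1 0 (Or.inl one_ne_zero)
    have e2 := hk 7 25 (Or.inl (by norm_num))
    have e3 := hS.1 (-1) 1 0 (by norm_num) (Or.inl one_ne_zero)
    simp only [act] at e1 e2 hk
    norm_num at e1 e2 e3
    have hk0 : k = 0 := by
      have e4 : K 1 0 = K 1 0 + k + k := by
        rw [← e1, ← e2, e3]
      linear_combination (-1 / 2 : ℂ) * e4
    intro p q hpq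
    rw [hk p q hpq, hk0, add_zero]
  have g6 : Iv K (-4) 1 (-25) 6 := by
    have := g4.inv (by norm_num)
    norm_num at this
    exact this
  have g11 : Iv K (-9) 4 (-25) 11 := by
    have := g9.inv (by norm_num)
    norm_num at this
    exact this
  have g8 : Iv K (-3) 1 (-25) 8 := by
    have := g6.mul g7 (by norm_num)
    norm_num at this
    exact this
  have g3 : Iv K 8 (-1) 25 (-3) := by
    have := g8.inv (by norm_num)
    norm_num at this
    exact this
  have g12 : Iv K 2 (-1) 25 (-12) := by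
    have := g8.mul g11 (by norm_num)
    norm_num at this
    exact this
  have g2 : Iv K (-12) 1 (-25) 2 := by
    have := g12.inv (by norm_num)
    norm_num at this
    exact this
  have h4 : ∀ p q : ℤ, (p ≠ 0 ∨ q ≠ 0) → K (-p) q = K p q := by
    intro p q hpq
    obtain ⟨c, hc⟩ := hst
    have e1 := hc 1 0 (Or.inl one_ne_zero)
    have e2 := hc p q hpq
    simp only [act] at e1 e2
    have e3 := hS.1 (-1) 1 0 (by norm_num) (Or.inl one_ne_zero)
    norm_num at e1 e2 e3
    rw [e3] at e1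
    have hc0 : c = 0 := by linear_combination -e1
    rw [e2, hc0, add_zero]
  obtain ⟨c, hc⟩ := hW
  have e8 : K 1 0 = -K 1 0 + c := by
    have e1 := hc 1 0 (Or.inl one_ne_zero)
    simp only [act, Pi.neg_apply] at e1
    norm_num at e1
    have e3 := hS.1 25 0 1 (by norm_num) (Or.inr one_ne_zero)
    norm_num at e3
    rw [← e1, e3, h0]
  have k3 : K 1 5 = K 1 0 := by
    have e2 := hc 1 5 (Or.inl one_ne_zero)
    simp only [act, Pi.neg_apply] at e2
    norm_num at e2
    have e4 := hS.1 5 (-1) 5 (by norm_num) (Or.inl (by norm_num))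
    have e5 := h4 1 5 (Or.inl one_ne_zero)
    norm_num at e4 e5
    have e7 : K 1 5 = -K 1 5 + c := by
      rw [← e2, e4, e5]
    have e9 : (2 : ℂ) * K 1 5 = 2 * K 1 0 := by
      linear_combination e7 - e8
    exact mul_left_cancel₀ two_ne_zero e9
  have k4 : K 2 5 = K 1 0 := by
    have e2 := hc 2 5 (Or.inl two_ne_zero)
    simp only [act, Pi.neg_apply] at e2
    norm_num at e2
    have e4 := hS.1 5 (-1) 10 (by norm_num) (Or.inl (by norm_num))
    have e5 := h4 1 10 (Or.inl one_ne_zero)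
    have e6 := g2 1 10 (Or.inl one_ne_zero)
    have e6' := hS.1 (-1) 2 5 (by norm_num) (Or.inl (by norm_num))
    norm_num at e4 e5 e6 e6'
    have e7 : K 2 5 = -K 2 5 + c := by
      rw [← e2, e4, e5, ← e6]
      try rw [e6']
    have e9 : (2 : ℂ) * K 2 5 = 2 * K 1 0 := by
      linear_combination e7 - e8
    exact mul_left_cancel₀ two_ne_zero e9
  refine ⟨K 1 0, fun p q hpq => ?_⟩
  rw [descent K (K 1 0) hS.1 h1 g1 g2 g3 g4 g6 g7 g8 g9 g11 g12 h4 rfl h0.symm k3 k4 _ p q
    le_rfl hpq]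
  simp

private theorem hn_W {G : ℤ → ℤ → ℂ} (hG : SymP 5 0 2 G) : SymP 5 0 2 (act 0 (-1) 25 0 G) := by
  refine SymP.act hG (by norm_num) fun a b c d hd _ hc => ?_
  obtain ⟨e, rfl⟩ := hc
  refine ⟨d, -e, -25 * b, a, ?_, by simp, ⟨-b, by push_cast; ring⟩, ?_, ?_, ?_, ?_⟩
  · push_cast at hd ⊢; linear_combination hd
  · push_cast; ring
  · ring
  · ring
  · ring

private theorem hn_S {G : ℤ → ℤ → ℂ} (hG : SymP 5 0 2 G) : SymP 5 0 2 (act (-1) 0 0 1 G) := by
  refine SymP.act hG (by norm_num) fun a b c d hd _ hc => ?_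
  refine ⟨a, -b, -c, d, ?_, by simp, (dvd_neg).mpr hc, ?_, ?_, ?_, ?_⟩
  · linear_combination hd
  · ring
  · ring
  · ring
  · ring

private theorem evw_add (ls : List ℕ) (G H : ℤ → ℤ → ℂ) :
    evw 1 ls (G + H) = evw 1 ls G + evw 1 ls H := by
  simp only [evw, Tw_add, Pi.add_apply]; ring

private theorem evw_smul (ls : List ℕ) (s : ℂ) (G : ℤ → ℤ → ℂ) :
    evw 1 ls (s • G) = s * evw 1 ls G := by
  simp only [evw, Tw_smul, Pi.smul_apply, smul_eq_mul]; ring

private theorem evw_neg (ls : List ℕ) (G : ℤ → ℤ → ℂ) : evw 1 ls (-G) = -evw 1 ls G := by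
  have := evw_smul ls (-1) G
  rw [neg_one_smul] at this
  rw [this]; ring

private theorem Tw_congr {G H : ℤ → ℤ → ℂ} (h : EqC G H) :
    ∀ ls : List ℕ, Ok 5 ls → EqC (Tw 1 ls G) (Tw 1 ls H) := by
  intro ls
  induction ls with
  | nil => intro _; exact h
  | cons l ls ih =>
    intro ho
    exact (ih fun x hx => ho x (List.mem_cons_of_mem _ hx)).Tl
      (ho l List.mem_cons_self).1.pos 1

private theorem evw_congr {G H : ℤ → ℤ → ℂ} (h : EqC G H) (ls : List ℕ) (ho : Ok 5 ls) :
    evw 1 ls G = evw 1 ls H :=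
  (Tw_congr h ls ho).diff (Or.inl one_ne_zero) (Or.inr one_ne_zero)

private theorem vanish (hEv : SPEv) (G : ℤ → ℤ → ℂ) (hG : SymP 5 0 2 G)
    (h0 : evw 1 [] G = 0) : ∀ ls : List ℕ, Ok 5 ls → evw 1 ls G = 0 := by
  have hn := hn_W hG
  have hev := fun ls ho => (hEv 5 (by norm_num) ℂ _ 2 G hG ls ho).1
  norm_num at hev
  obtain ⟨H, hH⟩ : ∃ H : ℤ → ℤ → ℂ, H = G + -act 0 (-1) 25 0 G := ⟨_, rfl⟩
  have hHev : ∀ ls : List ℕ, Ok 5 ls → evw 1 ls H = 2 * evw 1 ls G := by
    intro ls ho
    rw [hH, evw_add, evw_neg, hev ls ho]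
    ring
  have hHS : SymP 5 0 2 H := by
    rw [hH]
    exact SymP.add hG (SymP.neg hn)
  have hWW : EqC (act 0 (-1) 25 0 (act 0 (-1) 25 0 G)) G := by
    rw [act_act]
    have := hG.1.scale (a := 1) (b := 0) (c := 0) (d := 1) (-25) (by norm_num) (by norm_num)
    rw [act_one] at this
    norm_num at this ⊢
    exact this
  have hHW : EqC (act 0 (-1) 25 0 H) (-H) := by
    have e1 : act 0 (-1) 25 0 H = act 0 (-1) 25 0 G - act 0 (-1) 25 0 (act 0 (-1) 25 0 G) := by
      rw [hH, ← sub_eq_add_neg]; rfl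
    have e2 : -H = act 0 (-1) 25 0 G - G := by
      rw [hH, neg_add, neg_neg]; abel
    rw [e1, e2]
    exact (EqC.refl _).sub hWW
  have hHst := hn_S hHS
  have hHevst := fun ls ho => (hEv 5 (by norm_num) ℂ _ 2 H hHS ls ho).2
  obtain ⟨E, hE⟩ : ∃ E : ℤ → ℤ → ℂ, E = H + act (-1) 0 0 1 H := ⟨_, rfl⟩
  have hEev : ∀ ls : List ℕ, Ok 5 ls → evw 1 ls E = 4 * evw 1 ls G := by
    intro ls ho
    rw [hE, evw_add, hHevst ls ho, hHev ls ho]
    ring
  have hES : SymP 5 0 2 E := by
    rw [hE]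
    exact SymP.add hHS hHst
  have hEst : EqC (act (-1) 0 0 1 E) E := by
    refine EqC.of_eq fun p q _ => ?_
    rw [hE]
    simp only [act, Pi.add_apply]
    ring_nf
  have hEW : EqC (act 0 (-1) 25 0 E) (-E) := by
    have a1 : act 0 (-1) 25 0 E = act 0 (-1) 25 0 H + act 0 (-1) 25 0 (act (-1) 0 0 1 H) := by
      rw [hE]; rfl
    have a2 : EqC (act 0 (-1) 25 0 (act (-1) 0 0 1 H)) (act (-1) 0 0 1 (act 0 (-1) 25 0 H)) := by
      refine EqC.of_eq fun p q hpq => ?_
      simp only [act]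
      have := hHS.1 (-1) q (25 * p) (by norm_num) (by omega)
      norm_num at this ⊢
      exact this.symm
    have a3 : EqC (act (-1) 0 0 1 (act 0 (-1) 25 0 H)) (act (-1) 0 0 1 (-H)) :=
      hHW.act (by norm_num)
    have a4 : -E = -H + act (-1) 0 0 1 (-H) := by
      rw [hE, neg_add]; rfl
    rw [a1, a4]
    exact hHW.add (a2.trans a3)
  have hnil : Ok 5 [] := fun x hx => by simp at hx
  have hd : E 1 0 = E 0 1 := by
    have := hEev [] hnil
    rw [h0, mul_zero] at this
    exact sub_eq_zero.mp this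
  have hc := const_of E hES hEW hEst hd
  intro ls ho
  have h1 := evw_congr hc ls ho
  have h2 : evw 1 ls (0 : ℤ → ℤ → ℂ) = 0 := by
    have := evw_smul ls (0 : ℂ) (0 : ℤ → ℤ → ℂ)
    rw [zero_smul, zero_mul] at this
    exact this
  rw [hEev ls ho, h2] at h1
  exact (mul_eq_zero.mp h1).resolve_left (by norm_num)

/-- B3b. -/
theorem hB3b (hfar : Pool.Agent.Helper14.CV.StFar) (he : SPEv) : S5B3b := by
  have _ := hfar
  by_cases h : ∃ G0 : ℤ → ℤ → ℂ, SymP 5 0 2 G0 ∧ evw 1 [] G0 ≠ 0
  · obtain ⟨G0, hG0, hne⟩ := h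
    refine ⟨fun ls => evw 1 ls G0 / evw 1 [] G0, fun G hG => ⟨evw 1 [] G, fun ls ho => ?_⟩⟩
    have hev : ∀ ls : List ℕ, evw 1 ls (evw 1 [] G • G0 + -(evw 1 [] G0 • G)) =
        evw 1 [] G * evw 1 ls G0 - evw 1 [] G0 * evw 1 ls G := by
      intro ls
      rw [evw_add, evw_neg, evw_smul, evw_smul, sub_eq_add_neg]
    have h0 := vanish he (evw 1 [] G • G0 + -(evw 1 [] G0 • G))
      (SymP.add (SymP.smul _ hG0) (SymP.neg (SymP.smul _ hG))) (by rw [hev]; ring) ls ho
    rw [hev] at h0
    field_simp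
    linear_combination -h0
  · push Not at h
    exact ⟨0, fun G hG => ⟨0, fun ls ho => by
      rw [vanish he G hG (h G hG) ls ho, zero_mul]⟩⟩

end Pool.Agent.Helper53.W5
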