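import Pool.Agent.Helper14.W5.StE
import Pool.Agent.Helper71.W5.M_CoreOf

/-!
# Project W5, module DimOf: span of the values
-/

set_option autoImplicit false

namespace Pool.Agent.Helper53.W5

open Pool.Agent.Helper14.CV Pool.Agent.Helper14.W5
open Pool.Agent.Helper28.WK (SymP Tw evw Ok)
open Pool.Agent.Helper71.W5 (V V_bound)

/-- DIM5. -/
theorem hDimOf : S5DimOf := by
  intro h3a h3b hUB m G hm hG hli H hH
  obtain ⟨v1, v2⟩ := V_bound h3a h3b hUB m (by omega)
  have hle : Submodule.span ℂ (Set.range fun k => evLP 5 (G k)) ≤ V m := by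
    rw [Submodule.span_le]
    rintro x ⟨k, rfl⟩
    exact ⟨G k, hG k, rfl⟩
  have hrk : Module.finrank ℂ (V m) ≤
      Module.finrank ℂ (Submodule.span ℂ (Set.range fun k => evLP 5 (G k))) := by
    rw [finrank_span_eq_card hli, Fintype.card_fin]
    exact v2
  have heq := Submodule.eq_of_le_of_finrank_le hle hrk
  rw [heq]
  exact ⟨H, hH, rfl⟩

end Pool.Agent.Helper53.W5
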