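import Pool.Agent.Helper14.W5.StE
import Pool.Agent.Helper71.W5.M_CoreOf

/-!
# Project W5, module NexOf: old and new values are independent
-/

set_option autoImplicit false

namespace Pool.Agent.Helper53.W5

open Pool.Agent.Helper14.CV Pool.Agent.Helper14.W5
open Pool.Agent.Helper28.WK (SymP Tw evw Ok)
open Pool.Agent.Helper71.W5 (V W V_bound W_bound V_le_of_B3a)

/-- NEX5. -/
theorem hNexOf : S5NexOf := by
  intro h3a h3b hUB hLB m G0 G1 hm hG0 hG1 hev
  by_contra hne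
  have he : evLP 5 G1 = -evLP 5 G0 := by
    funext ls
    by_cases hls : Ok 5 ls
    · have h1 : evLP 5 G1 ls = evw 1 ls G1 := if_pos hls
      have h2 : evLP 5 G0 ls = evw 1 ls G0 := if_pos hls
      rw [h1, Pi.neg_apply, h2]
      exact eq_neg_of_add_eq_zero_right (hev ls hls)
    · have h1 : evLP 5 G1 ls = 0 := if_neg hls
      have h2 : evLP 5 G0 ls = 0 := if_neg hls
      rw [h1, Pi.neg_apply, h2, neg_zero]
  obtain ⟨w1, w2, w3⟩ := W_bound hUB (n := m) hm
  obtain ⟨v1, v2⟩ := V_bound h3a h3b hUB (m - 1) (by omega)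
  have hle := V_le_of_B3a h3a (n := m) hm
  have hfin : Module.Finite ℂ (V (m - 1) ⊔ W m : Submodule ℂ (List ℕ → ℂ)) :=
    Submodule.finiteDimensional_sup _ _
  have hfinV : Module.Finite ℂ (V m) := Submodule.finiteDimensional_of_le hle
  have h1 := Submodule.finrank_mono hle
  have h2 := Submodule.finrank_sup_add_finrank_inf_eq (V (m - 1)) (W m)
  have h3 : DD5 m = DD5 (m - 1) + dd5 m := by
    obtain ⟨k, rfl⟩ : ∃ k, m = k + 1 := ⟨m - 1, by omega⟩
    rw [Nat.add_sub_cancel]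
    unfold DD5
    rw [Finset.sum_range_succ]
    ring
  obtain ⟨H, hH, hli⟩ := hLB m hm
  have hli' : LinearIndependent ℂ (fun k => (⟨evLP 5 (H k), ⟨H k, hH k, rfl⟩⟩ : V m)) := by
    refine LinearIndependent.of_comp (V m).subtype ?_
    exact hli
  have h4 := hli'.fintype_card_le_finrank
  rw [Fintype.card_fin] at h4
  by_cases h0 : evLP 5 G1 = 0
  · have hw := w3 G1 hG1 h0 hne
    omega
  · have hmem : evLP 5 G1 ∈ V (m - 1) ⊓ W m := by
      refine ⟨?_, ⟨G1, hG1, rfl⟩⟩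
      rw [he]
      exact (V (m - 1)).neg_mem ⟨G0, hG0, rfl⟩
    have hnt : Nontrivial (V (m - 1) ⊓ W m : Submodule ℂ (List ℕ → ℂ)) :=
      ⟨⟨⟨_, hmem⟩, 0, fun h => h0 (congrArg Subtype.val h)⟩⟩
    have hf : Module.Finite ℂ (V (m - 1) ⊓ W m : Submodule ℂ (List ℕ → ℂ)) :=
      Submodule.finiteDimensional_of_le inf_le_left
    have h5 : 0 < Module.finrank ℂ (V (m - 1) ⊓ W m : Submodule ℂ (List ℕ → ℂ)) :=
      Module.finrank_pos
    omega

end Pool.Agent.Helper53.W5
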