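import Pool.Agent.Helper14.W5.StD

/-!
# Project W5, module Om: value at the origin in degree 4
-/

set_option autoImplicit false

namespace Pool.Agent.Helper53.W5

open Pool.Agent.Helper14.CV (Homog EqC act Tl)
open Pool.Agent.Helper14.W5

section lists

variable {q q' : ℕ}

private lemma opL_nil : (opL [] : Module.End (ZMod 5) (Fn5 q q')) = 0 := by simp [opL]

private lemma opL_cons (t : Tm) (L : List Tm) : (opL (t :: L) : Module.End (ZMod 5) (Fn5 q q')) =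
    ((t.1 : ℤ) : ZMod 5) • op5 t.2.1 t.2.2.1 t.2.2.2.1 t.2.2.2.2 + opL L := by simp [opL]

private lemma opL_app (L L' : List Tm) :
    (opL (L ++ L') : Module.End (ZMod 5) (Fn5 q q')) = opL L + opL L' := by simp [opL]

private lemma opL_scl (n : ℤ) (L : List Tm) :
    (opL (sclL n L) : Module.End (ZMod 5) (Fn5 q q')) = ((n : ℤ) : ZMod 5) • opL L := by
  induction L with
  | nil => simp [sclL, opL_nil]
  | cons t L ih =>
    have h : sclL n (t :: L) = (n * t.1, t.2) :: sclL n L := rfl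
    rw [h, opL_cons, opL_cons, ih, smul_add, smul_smul]
    push_cast
    rfl

private lemma op_zero (a b c d : ℤ) (F : Fn5 q q') :
    (op5 a b c d F : Fn5 q q') 0 0 =
      F ((b : ZMod q) * (a : ZMod q)⁻¹) ((c : ZMod q') * (d : ZMod q')⁻¹) := by
  change F (((b : ZMod q) + d * 0) * ((a : ZMod q) + 5 * c * 0)⁻¹)
    (((c : ZMod q') + a * 0) * ((d : ZMod q') + 5 * b * 0)⁻¹) = _
  simp only [mul_zero, add_zero]

private lemma dXpow (k : ℕ) (F : Fn5 q q') (y : ZMod q') :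
    (fun x => ((dX ^ k : Module.End (ZMod 5) (Fn5 q q')) F) x y) =
      (fwdDiff (1 : ZMod q))^[k] (fun x => F x y) := by
  induction k with
  | zero => rfl
  | succ k ih =>
    rw [Function.iterate_succ_apply', ← ih, pow_succ']
    rfl

private lemma dYpow (k : ℕ) (F : Fn5 q q') (x : ZMod q) :
    (fun y => ((dY ^ k : Module.End (ZMod 5) (Fn5 q q')) F) x y) =
      (fwdDiff (1 : ZMod q'))^[k] (fun y => F x y) := by
  induction k with
  | zero => rfl
  | succ k ih =>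
    rw [Function.iterate_succ_apply', ← ih, pow_succ']
    rfl

private lemma newX (n : ℕ) (F : Fn5 q q') (x : ZMod q) (y : ZMod q') :
    F (x + n) y = ∑ i ∈ Finset.range (n + 1), (n.choose i : ZMod 5) *
      ((dX ^ i : Module.End (ZMod 5) (Fn5 q q')) F) x y := by
  have h := shift_eq_sum_fwdDiff_iter (1 : ZMod q) (fun x => F x y) n x
  rw [nsmul_one] at h
  rw [h]
  refine Finset.sum_congr rfl fun i _ => ?_
  rw [← dXpow, nsmul_eq_mul]

private lemma newY (n : ℕ) (F : Fn5 q q') (x : ZMod q) (y : ZMod q') :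
    F x (y + n) = ∑ i ∈ Finset.range (n + 1), (n.choose i : ZMod 5) *
      ((dY ^ i : Module.End (ZMod 5) (Fn5 q q')) F) x y := by
  have h := shift_eq_sum_fwdDiff_iter (1 : ZMod q') (fun y => F x y) n y
  rw [nsmul_one] at h
  rw [h]
  refine Finset.sum_congr rfl fun i _ => ?_
  rw [← dYpow, nsmul_eq_mul]

private lemma five : ∀ g : ℕ → ZMod 5, g 5 = 0 →
    ∑ i ∈ Finset.range (5 + 1), (Nat.choose 5 i : ZMod 5) * g i = g 0 := by
  intro g hg
  have h5 : (5 : ZMod 5) = 0 := by decide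
  have h10 : (10 : ZMod 5) = 0 := by decide
  simp [Finset.sum_range_succ, Nat.choose, hg, h5, h10]

private lemma perX (F : Fn5 q q') (h : (dX ^ 5 : Module.End (ZMod 5) (Fn5 q q')) F = 0) (y : ZMod q') :
    ∀ (n : ℕ) (x : ZMod q), F (x + 5 * (n : ZMod q)) y = F x y := by
  intro n
  induction n with
  | zero => intro x; simp
  | succ n ih =>
    intro x
    have e : x + 5 * ((n + 1 : ℕ) : ZMod q) = (x + 5 * (n : ZMod q)) + (5 : ℕ) := by
      push_cast; ring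
    rw [e, newX 5 F, five _ (by rw [h]; rfl), pow_zero]
    exact ih x

private lemma perY (F : Fn5 q q') (h : (dY ^ 5 : Module.End (ZMod 5) (Fn5 q q')) F = 0) (x : ZMod q) :
    ∀ (n : ℕ) (y : ZMod q'), F x (y + 5 * (n : ZMod q')) = F x y := by
  intro n
  induction n with
  | zero => intro y; simp
  | succ n ih =>
    intro y
    have e : y + 5 * ((n + 1 : ℕ) : ZMod q') = (y + 5 * (n : ZMod q')) + (5 : ℕ) := by
      push_cast; ring
    rw [e, newY 5 F, five _ (by rw [h]; rfl), pow_zero]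
    exact ih y

private lemma perX' [NeZero q] (F : Fn5 q q') (h : (dX ^ 5 : Module.End (ZMod 5) (Fn5 q q')) F = 0)
    (x u : ZMod q) (y : ZMod q') : F (x + 5 * u) y = F x y := by
  have := perX F h y u.val x
  rwa [ZMod.natCast_zmod_val] at this

private lemma perY' [NeZero q'] (F : Fn5 q q') (h : (dY ^ 5 : Module.End (ZMod 5) (Fn5 q q')) F = 0)
    (x : ZMod q) (y u : ZMod q') : F x (y + 5 * u) = F x y := by
  have := perY F h x u.val y
  rwa [ZMod.natCast_zmod_val] at this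

end lists

/-- entries prime to five -/
private def good (L : List Tm) : Prop := ∀ t ∈ L, Gd t

private lemma unitInt (r : ℕ) (a : ℤ) (ha : a % 5 ≠ 0) : IsUnit (a : ZMod (5 ^ r)) := by
  have ha' : ¬ (5 : ℤ) ∣ a := by omega
  have h1 : IsCoprime a (5 : ℤ) := by
    have hp : Prime (5 : ℤ) := by
      have := Nat.prime_iff_prime_int.1 Nat.prime_five
      exact_mod_cast this
    exact ((Prime.coprime_iff_not_dvd hp).2 ha').symm
  have h2 : IsCoprime a ((5 : ℤ) ^ r) := h1.pow_right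
  obtain ⟨u, v, huv⟩ := h2
  have h3 : (u : ZMod (5 ^ r)) * (a : ZMod (5 ^ r)) = 1 := by
    have h4 : ((u * a + v * (5 : ℤ) ^ r : ℤ) : ZMod (5 ^ r)) = ((1 : ℤ) : ZMod (5 ^ r)) := by
      rw [huv]
    have h5 : (((5 : ℤ) ^ r : ℤ) : ZMod (5 ^ r)) = 0 := by
      have h := ZMod.natCast_self (5 ^ r)
      push_cast at h ⊢
      exact h
    push_cast at h4 h5
    rw [h5, mul_zero, add_zero] at h4
    exact h4
  exact IsUnit.of_mul_eq_one (u : ZMod (5 ^ r)) (by rw [mul_comm]; exact h3)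

private lemma fourth (a : ℤ) (ha : a % 5 ≠ 0) : ∃ k : ℤ, a ^ 4 = 1 + 5 * k := by
  have h : a ^ 4 % 5 = 1 := by
    have h1 : a % 5 = 1 ∨ a % 5 = 2 ∨ a % 5 = 3 ∨ a % 5 = 4 := by omega
    rcases h1 with h1 | h1 | h1 | h1 <;> norm_num [pow_succ, Int.mul_emod, h1]
  exact ⟨a ^ 4 / 5, by omega⟩

private lemma resid (r : ℕ) (a b : ℤ) (ha : a % 5 ≠ 0) : ∃ u : ZMod (5 ^ r),
    (b : ZMod (5 ^ r)) * (a : ZMod (5 ^ r))⁻¹ = 0 + ((((b * a ^ 3) % 5).toNat : ℕ) : ZMod (5 ^ r)) + 5 * u := by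
  have h1 : (a : ZMod (5 ^ r)) * (a : ZMod (5 ^ r))⁻¹ = 1 := ZMod.mul_inv_of_unit _ (unitInt r a ha)
  obtain ⟨k, hk⟩ := fourth a ha
  have hk' : (a : ZMod (5 ^ r)) ^ 4 = 1 + 5 * (k : ZMod (5 ^ r)) := by
    have := congrArg (fun z : ℤ => (z : ZMod (5 ^ r))) hk
    push_cast at this
    exact this
  have h2 : ((((b * a ^ 3) % 5).toNat : ℕ) : ZMod (5 ^ r)) =
      (b : ZMod (5 ^ r)) * (a : ZMod (5 ^ r)) ^ 3 - 5 * ((b * a ^ 3 / 5 : ℤ) : ZMod (5 ^ r)) := by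
    have e1 : ((((b * a ^ 3) % 5).toNat : ℕ) : ℤ) = b * a ^ 3 - 5 * (b * a ^ 3 / 5) := by omega
    have e2 : (((((b * a ^ 3) % 5).toNat : ℕ) : ℤ) : ZMod (5 ^ r)) =
        ((b * a ^ 3 - 5 * (b * a ^ 3 / 5) : ℤ) : ZMod (5 ^ r)) := by rw [e1]
    rw [Int.cast_natCast] at e2
    rw [e2]
    push_cast
    ring
  refine ⟨((b * a ^ 3 / 5 : ℤ) : ZMod (5 ^ r)) - k * ((b : ZMod (5 ^ r)) * (a : ZMod (5 ^ r))⁻¹), ?_⟩
  rw [h2]
  linear_combination (b : ZMod (5 ^ r)) * (a : ZMod (5 ^ r)) ^ 3 * h1 -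
    (b : ZMod (5 ^ r)) * (a : ZMod (5 ^ r))⁻¹ * hk'

section ops

variable {r s : ℕ}

private lemma op5_mul (hm : S5Trm) (a b c d a' b' c' d' : ℤ) (ha : a % 5 ≠ 0) (hd : d % 5 ≠ 0)
    (ha' : a' % 5 ≠ 0) (hd' : d' % 5 ≠ 0) :
    (op5 a b c d * op5 a' b' c' d' : Module.End (ZMod 5) (Fn5 (5 ^ r) (5 ^ s))) =
      op5 (a * a' + 5 * b * c') (a * b' + b * d') (c * a' + d * c') (5 * c * b' + d * d') := by
  refine LinearMap.ext fun F => ?_
  exact (hm (ZMod 5) r s F).1 a b c d a' b' c' d' (by omega) (by omega) (by omega) (by omega)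

private lemma opL_map (hm : S5Trm) (t : Tm) (ht : Gd t) (L : List Tm)
    (hL : good L) : (opL (L.map fun t' => mulT t t') : Module.End (ZMod 5) (Fn5 (5 ^ r) (5 ^ s))) =
      (((t.1 : ℤ) : ZMod 5) • op5 t.2.1 t.2.2.1 t.2.2.2.1 t.2.2.2.2) * opL L := by
  induction L with
  | nil => simp [opL_nil]
  | cons t' L ih =>
    have h1 := hL t' List.mem_cons_self
    rw [List.map_cons, opL_cons, opL_cons, ih fun x hx => hL x (List.mem_cons_of_mem _ hx), mul_add]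
    congr 1
    rw [smul_mul_smul_comm, op5_mul hm _ _ _ _ _ _ _ _ ht.1 ht.2 h1.1 h1.2]
    unfold mulT
    push_cast
    rfl

private lemma opL_mul (hm : S5Trm) (L L' : List Tm) (hL : good L) (hL' : good L') :
    (opL (mulL L L') : Module.End (ZMod 5) (Fn5 (5 ^ r) (5 ^ s))) = opL L * opL L' := by
  induction L with
  | nil => simp [mulL, opL_nil]
  | cons t L ih =>
    have h : mulL (t :: L) L' = (L'.map fun t' => mulT t t') ++ mulL L L' := by
      unfold mulL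
      rw [List.flatMap_cons]
    rw [h, opL_app, opL_map hm t (hL t List.mem_cons_self) L' hL', opL_cons, add_mul,
      ih fun x hx => hL x (List.mem_cons_of_mem _ hx)]

private lemma rel_eq (hm : S5Trm) (F : Fin 2 → Fn5 (5 ^ r) (5 ^ s)) (h : Rel5 F) (ρ : Fin 2) :
    ∑ f : Fin 2, opL (relL ρ f) (F f) = 0 := by
  have h0 : ∀ G : Fn5 (5 ^ r) (5 ^ s), op5 1 0 0 1 G = G := fun G => (hm (ZMod 5) r s G).2.1
  rw [Fin.sum_univ_two]
  fin_cases ρ
  · simp only [relL, opL_cons, opL_nil, LinearMap.add_apply, LinearMap.smul_apply,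
      LinearMap.zero_apply, h0]
    funext x y
    have h1 := h.1 x y
    simp only [Pi.add_apply, Pi.smul_apply, smul_eq_mul, Pi.zero_apply, add_zero, zero_add]
    push_cast
    change 1 * F 1 x y + 1 * tr5 2 (-1) 1 (-2) (F 1) x y = 0
    linear_combination h1
  · simp only [relL, opL_cons, opL_nil, LinearMap.add_apply, LinearMap.smul_apply,
      LinearMap.zero_apply, h0]
    funext x y
    have h1 := h.2 x y
    simp only [Pi.add_apply, Pi.smul_apply, smul_eq_mul, Pi.zero_apply, add_zero]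
    push_cast
    change 1 * F 0 x y + (-1 * tr5 1 1 0 1 (F 0) x y + (1 * tr5 3 (-2) 1 (-3) (F 0) x y +
      -1 * tr5 3 1 1 2 (F 0) x y)) + (-1 * F 1 x y + -1 * tr5 3 (-2) 1 (-3) (F 1) x y) = 0
    linear_combination h1

/-- the value at the origin -/
private lemma val_zero (hcm : (dX * dY : Module.End (ZMod 5) (Fn5 (5 ^ r) (5 ^ s))) = dY * dX)
    (G : Fn5 (5 ^ r) (5 ^ s)) (hG : G ∈ Wd5 4) (a b c d : ℤ) (ha : a % 5 ≠ 0) (hd : d % 5 ≠ 0) :
    (op5 a b c d G : Fn5 (5 ^ r) (5 ^ s)) 0 0 = ∑ i ∈ Finset.range 5, ∑ j ∈ Finset.range 5,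
      ((((((b * a ^ 3) % 5).toNat).choose i * (((c * d ^ 3) % 5).toNat).choose j : ℕ) : ℤ) : ZMod 5) *
        ((dX ^ i * dY ^ j : Module.End (ZMod 5) (Fn5 (5 ^ r) (5 ^ s))) G) 0 0 := by
  have hx : (dX ^ 5 : Module.End (ZMod 5) (Fn5 (5 ^ r) (5 ^ s))) G = 0 := by
    have := hG 5 0 (by norm_num)
    rwa [pow_zero, mul_one] at this
  have hy : (dY ^ 5 : Module.End (ZMod 5) (Fn5 (5 ^ r) (5 ^ s))) G = 0 := by
    have := hG 0 5 (by norm_num)
    rwa [pow_zero, one_mul] at this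
  obtain ⟨u, hu⟩ := resid r a b ha
  obtain ⟨v, hv⟩ := resid s d c hd
  have hx4 : ((b * a ^ 3) % 5).toNat ≤ 4 := by omega
  have hy4 : ((c * d ^ 3) % 5).toNat ≤ 4 := by omega
  rw [op_zero, hu, hv, perX' G hx, perY' G hy]
  generalize ((b * a ^ 3) % 5).toNat = X at hx4
  generalize ((c * d ^ 3) % 5).toNat = Y at hy4
  have ext5 : ∀ (N : ℕ) (g : ℕ → ZMod 5), N ≤ 4 →
      ∑ i ∈ Finset.range (N + 1), (N.choose i : ZMod 5) * g i =
        ∑ i ∈ Finset.range 5, (N.choose i : ZMod 5) * g i := by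
    intro N g hN
    refine Finset.sum_subset (fun i hi => ?_) (fun i _ hi => ?_)
    · rw [Finset.mem_range] at hi ⊢; omega
    · rw [Finset.mem_range, not_lt] at hi
      rw [Nat.choose_eq_zero_of_lt (by omega), Nat.cast_zero, zero_mul]
  rw [newX X G 0 _, ext5 X _ hx4]
  refine Finset.sum_congr rfl fun i _ => ?_
  rw [newY Y ((dX ^ i : Module.End (ZMod 5) (Fn5 (5 ^ r) (5 ^ s))) G) 0 0, ext5 Y _ hy4, Finset.mul_sum]
  refine Finset.sum_congr rfl fun j _ => ?_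
  have hc : (dY ^ j * dX ^ i : Module.End (ZMod 5) (Fn5 (5 ^ r) (5 ^ s))) = dX ^ i * dY ^ j := by
    have h1 : Commute (dX : Module.End (ZMod 5) (Fn5 (5 ^ r) (5 ^ s))) dY := hcm
    exact (h1.pow_pow i j).eq.symm
  have e : ((dY ^ j : Module.End (ZMod 5) (Fn5 (5 ^ r) (5 ^ s)))
      ((dX ^ i : Module.End (ZMod 5) (Fn5 (5 ^ r) (5 ^ s))) G)) =
      (dX ^ i * dY ^ j : Module.End (ZMod 5) (Fn5 (5 ^ r) (5 ^ s))) G := by
    rw [← hc]; rfl
  rw [e]
  push_cast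
  ring

private lemma val_list (hcm : (dX * dY : Module.End (ZMod 5) (Fn5 (5 ^ r) (5 ^ s))) = dY * dX)
    (G : Fn5 (5 ^ r) (5 ^ s)) (hG : G ∈ Wd5 4) (L : List Tm) (hL : good L) :
    (opL L G : Fn5 (5 ^ r) (5 ^ s)) 0 0 = ∑ i ∈ Finset.range 5, ∑ j ∈ Finset.range 5,
      ((nS L i j : ℤ) : ZMod 5) *
        ((dX ^ i * dY ^ j : Module.End (ZMod 5) (Fn5 (5 ^ r) (5 ^ s))) G) 0 0 := by
  induction L with
  | nil => simp [opL_nil, nS]
  | cons t L ih =>
    have h1 := hL t List.mem_cons_self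
    have h2 := ih fun x hx => hL x (List.mem_cons_of_mem _ hx)
    have h3 := val_zero hcm G hG t.2.1 t.2.2.1 t.2.2.2.1 t.2.2.2.2 h1.1 h1.2
    rw [opL_cons]
    change ((t.1 : ℤ) : ZMod 5) * (op5 t.2.1 t.2.2.1 t.2.2.2.1 t.2.2.2.2 G : Fn5 (5 ^ r) (5 ^ s)) 0 0 +
      (opL L G : Fn5 (5 ^ r) (5 ^ s)) 0 0 = _
    rw [h2, h3, Finset.mul_sum, ← Finset.sum_add_distrib]
    refine Finset.sum_congr rfl fun i _ => ?_
    rw [Finset.mul_sum, ← Finset.sum_add_distrib]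
    refine Finset.sum_congr rfl fun j _ => ?_
    have e : nS (t :: L) i j = (t.1 : ℤ) * (((((t.2.2.1 * t.2.1 ^ 3) % 5).toNat).choose i *
      (((t.2.2.2.1 * t.2.2.2.2 ^ 3) % 5).toNat).choose j : ℕ) : ℤ) + nS L i j := by
      simp [nS]
    rw [e]
    push_cast
    ring

private lemma cast5 {S C : ℤ} (h : (5 : ℤ) ∣ S - C) : (S : ZMod 5) = (C : ZMod 5) := by
  have h1 := (ZMod.intCast_zmod_eq_zero_iff_dvd (S - C) 5).2 (by exact_mod_cast h)
  push_cast at h1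
  exact sub_eq_zero.1 h1

end ops

private lemma goodB0 : good (BO 0) := by
  unfold good
  decide +kernel

private lemma goodB1 : good (BO 1) := by
  unfold good
  decide +kernel

/-- OM. -/
theorem hOm (hm : S5Trm) (hl : S5Low0) (hc : S5Cert) : S5Om := by
  intro r s F hR h0 h1
  obtain ⟨c1, c2, c3, c4, c5, c6, c7⟩ := hc
  obtain ⟨_, _, _, _, hmono, _, _, _, hcm, _⟩ := hl r s
  have hr0 := rel_eq hm F hR 0
  have hr1 := rel_eq hm F hR 1
  -- multiples of the relations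
  have hmul : ∀ (U : List Tm) (ρ : Fin 2), good U →
      ∑ f : Fin 2, opL (sclL (-1) (mulL U (relL ρ f))) (F f) = 0 := by
    intro U ρ hU
    have h2 : ∀ f : Fin 2, opL (sclL (-1) (mulL U (relL ρ f))) (F f) =
        (((-1 : ℤ)) : ZMod 5) • (opL U) (opL (relL ρ f) (F f)) := by
      intro f
      rw [opL_scl, opL_mul hm U (relL ρ f) hU (fun t ht => (c1 ρ f).2.2.1 t ht)]
      rfl
    rw [Finset.sum_congr rfl fun f _ => h2 f, ← Finset.smul_sum, ← map_sum, rel_eq hm F hR ρ, map_zero,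
      smul_zero]
  have hBO : ∑ f : Fin 2, opL (OL f) (F f) = ∑ f : Fin 2, opL (BO f) (F f) := by
    have h2 : ∀ f : Fin 2, opL (BO f) (F f) = opL (OL f) (F f) +
        opL (sclL (-1) (mulL [(1, 1, 4, 3, 1)] (relL 0 f))) (F f) +
        opL (sclL (-1) (mulL [(4, 1, 0, 2, 1)] (relL 1 f))) (F f) := by
      intro f
      unfold BO
      rw [opL_app, opL_app, LinearMap.add_apply, LinearMap.add_apply]
    rw [Finset.sum_congr rfl fun f _ => h2 f, Finset.sum_add_distrib, Finset.sum_add_distrib,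
      hmul [(1, 1, 4, 3, 1)] 0 (by unfold good; decide), hmul [(4, 1, 0, 2, 1)] 1 (by unfold good; decide),
      add_zero, add_zero]
  have h14 : F 1 ∈ (Wd5 4 : Submodule (ZMod 5) (Fn5 (5 ^ r) (5 ^ s))) := hmono 3 4 (by norm_num) h1
  rw [hBO, Fin.sum_univ_two, Pi.add_apply, Pi.add_apply, val_list hcm (F 0) h0 _ goodB0,
    val_list hcm (F 1) h14 _ goodB1]
  have z1 : ∑ i ∈ Finset.range 5, ∑ j ∈ Finset.range 5, ((nS (BO 1) i j : ℤ) : ZMod 5) *
      ((dX ^ i * dY ^ j : Module.End (ZMod 5) (Fn5 (5 ^ r) (5 ^ s))) (F 1)) 0 0 = 0 := by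
    refine Finset.sum_eq_zero fun i hi => Finset.sum_eq_zero fun j hj => ?_
    by_cases hij : i + j ≤ 3
    · rw [cast5 (C := 0) (by rw [sub_zero]; exact c7 i (by omega) j (by omega) hij)]
      simp
    · rw [h1 i j (by omega)]
      simp
  have z0 : ∀ i ∈ Finset.range 5, ∀ j ∈ Finset.range 5, ((nS (BO 0) i j : ℤ) : ZMod 5) *
      ((dX ^ i * dY ^ j : Module.End (ZMod 5) (Fn5 (5 ^ r) (5 ^ s))) (F 0)) 0 0 =
      (((if (i = 1 ∧ j = 3) ∨ (i = 2 ∧ j = 2) ∨ (i = 3 ∧ j = 1) then 4 else 0 : ℤ)) : ZMod 5) *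
      ((dX ^ i * dY ^ j : Module.End (ZMod 5) (Fn5 (5 ^ r) (5 ^ s))) (F 0)) 0 0 := by
    intro i hi j hj
    rw [Finset.mem_range] at hi hj
    by_cases hij : i + j ≤ 4
    · rw [cast5 (c6 i hi j hj hij)]
    · rw [h0 i j (by omega)]
      simp
  rw [z1, add_zero, Finset.sum_congr rfl fun i hi => Finset.sum_congr rfl fun j hj => z0 i hi j hj]
  simp only [Finset.sum_range_succ, Finset.sum_range_zero]
  norm_num
  have e : Mo (F 0) 0 0 = 4 * (((dX ^ 3 * dY ^ 1 : Module.End (ZMod 5) (Fn5 (5 ^ r) (5 ^ s))) (F 0)) 0 0 +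
      ((dX ^ 2 * dY ^ 2 : Module.End (ZMod 5) (Fn5 (5 ^ r) (5 ^ s))) (F 0)) 0 0 +
      ((dX ^ 1 * dY ^ 3 : Module.End (ZMod 5) (Fn5 (5 ^ r) (5 ^ s))) (F 0)) 0 0) := by
    have hc2 : Commute (dX : Module.End (ZMod 5) (Fn5 (5 ^ r) (5 ^ s))) dY := hcm
    have e1 : (dX * dY * (dX ^ 2 + dX * dY + dY ^ 2) : Module.End (ZMod 5) (Fn5 (5 ^ r) (5 ^ s))) =
        dX ^ 3 * dY ^ 1 + dX ^ 2 * dY ^ 2 + dX ^ 1 * dY ^ 3 := by
      have a1 : (dY * dX ^ 2 : Module.End (ZMod 5) (Fn5 (5 ^ r) (5 ^ s))) = dX ^ 2 * dY :=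
        (hc2.pow_left 2).eq.symm
      have a2 : (dY * (dX * dY) : Module.End (ZMod 5) (Fn5 (5 ^ r) (5 ^ s))) = dX * dY ^ 2 := by
        rw [← mul_assoc, ← hcm, mul_assoc, pow_two]
      rw [mul_add, mul_add, mul_assoc dX dY (dX ^ 2), a1, mul_assoc dX dY (dX * dY), a2,
        mul_assoc dX dY (dY ^ 2)]
      simp only [pow_succ, pow_zero, one_mul, mul_assoc]
    unfold Mo
    rw [e1]
    rfl
  rw [e]
  simp only [pow_one, Module.End.mul_apply]
  ring

end Pool.Agent.Helper53.W5
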